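import Mathlib

/-!
For every `b ≥ 1` there is a finite connected graph with exactly `b` irreducible FAT colourings.

For `b = 1` we use the one-vertex graph.  For `b = m + 2` we use a cactus of `4`-cycles: a
`4`-cycle `v p q r` and `m` gadgets; each gadget consists of two `4`-cycles `v a b c` and
`a x y z` sharing the vertex `a`.  All gadgets share the vertex `v`.
-/

set_option autoImplicit false

namespace Pool.Agent.Results.MP_48b99b_co.EveryCount

/-- `e(v, V_i)`: the number of neighbours of `v` that have colour `i`. -/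
noncomputable def e {V : Type} (G : SimpleGraph V) {k : ℕ} (c : V → Fin k) (v : V) (i : Fin k) :
    ℕ :=
  {w | G.Adj v w ∧ c w = i}.ncard

/-- `c` is a FAT `k`-colouring of `G`: there is `α ∈ [0, 1]` such that, with
`β = 1 - (k - 1) α`, one has `e(v, V_i) = α deg v` if `v ∉ V_i` and `e(v, V_i) = β deg v` if
`v ∈ V_i`. -/
def IsFAT {V : Type} (G : SimpleGraph V) {k : ℕ} (c : V → Fin k) : Prop :=
  ∃ α : ℝ, 0 ≤ α ∧ α ≤ 1 ∧ ∀ (v : V) (i : Fin k),
    (c v ≠ i → (e G c v i : ℝ) = α * ((G.neighborSet v).ncard : ℝ)) ∧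
    (c v = i → (e G c v i : ℝ) = (1 - ((k : ℝ) - 1) * α) * ((G.neighborSet v).ncard : ℝ))

/-- The partitions of the vertex set into the nonempty colour classes of FAT colourings,
a partition being given by its equivalence relation. -/
def FATPartitions {V : Type} (G : SimpleGraph V) : Set (Setoid V) :=
  {s | ∃ (k : ℕ) (c : V → Fin k), IsFAT G c ∧ Setoid.ker c = s}

/-- The irreducible FAT partitions: those FAT partitions that have no strictly finer FAT partition
(`t ≤ s` says that every class of `s` is a union of classes of `t`). -/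
def Irreducibles {V : Type} (G : SimpleGraph V) : Set (Setoid V) :=
  {s | s ∈ FATPartitions G ∧ ∀ t ∈ FATPartitions G, t ≤ s → t = s}

/-- Two irreducible FAT partitions are identified if an automorphism of `G` maps one to the
other. -/
def orbitRel {V : Type} (G : SimpleGraph V) : Setoid (Irreducibles G) where
  r s t := ∃ φ : G ≃g G, t.1 = Setoid.comap φ s.1
  iseqv := by
    refine ⟨?_, ?_, ?_⟩
    · intro s
      exact ⟨SimpleGraph.Iso.refl, by ext x y; rfl⟩
    · rintro s t ⟨φ, h⟩
      refine ⟨φ.symm, ?_⟩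
      rw [h]
      ext x y
      simp only [Setoid.comap_rel]
      simp
    · rintro s t u ⟨φ, h⟩ ⟨ψ, h'⟩
      refine ⟨ψ.trans φ, ?_⟩
      rw [h', h]
      ext x y
      simp only [Setoid.comap_rel]
      rfl

/-- The number of irreducible FAT colourings of `G`, up to automorphisms of `G`. -/
noncomputable def numIrreducible {V : Type} (G : SimpleGraph V) : ℕ :=
  Nat.card (Quotient (orbitRel G))

/-! ### The graph -/

/-- Vertices: `inl 0, 1, 2, 3` is `v, p, q, r` and `inr (g, 0), …, inr (g, 5)` is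
`a, b, c, x, y, z` of the gadget `g`. -/
abbrev Vx (m : ℕ) : Type := Fin 4 ⊕ (Fin m × Fin 6)

/-- Adjacency in the `4`-cycle `v p q r`. -/
def A4 (i j : Fin 4) : Bool := decide (j = i + 1) || decide (i = j + 1)

/-- Adjacency inside a gadget. -/
def A6 (s t : Fin 6) : Bool :=
  decide ((s, t) ∈ ([(0, 1), (1, 0), (1, 2), (2, 1), (0, 3), (3, 0), (3, 4), (4, 3), (4, 5), (5, 4),
    (5, 0), (0, 5)] : List (Fin 6 × Fin 6)))

/-- The vertices `a` and `c` of a gadget are adjacent to `v`. -/
def rt (s : Fin 6) : Bool := decide (s = 0) || decide (s = 2)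

/-- The graph. -/
def Gm (m : ℕ) : SimpleGraph (Vx m) where
  Adj x y := match x, y with
    | Sum.inl i, Sum.inl j => A4 i j = true
    | Sum.inl i, Sum.inr g => i = 0 ∧ rt g.2 = true
    | Sum.inr g, Sum.inl i => i = 0 ∧ rt g.2 = true
    | Sum.inr g, Sum.inr h => g.1 = h.1 ∧ A6 g.2 h.2 = true
  symm := by
    constructor
    rintro (i | ⟨g, s⟩) (j | ⟨h, t⟩) hadj
    · have : ∀ i j : Fin 4, A4 i j = true → A4 j i = true := by decide
      exact this i j hadj
    · exact hadj
    · exact hadj
    · have : ∀ i j : Fin 6, A6 i j = true → A6 j i = true := by decide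
      exact ⟨hadj.1.symm, this s t hadj.2⟩
  loopless := by
    constructor
    rintro (i | ⟨g, s⟩) hadj
    · have : ∀ i : Fin 4, ¬ (A4 i i = true) := by decide
      exact this i hadj
    · have : ∀ i : Fin 6, ¬ (A6 i i = true) := by decide
      exact this s hadj.2

section

variable {m : ℕ}

lemma adj_ll (i j : Fin 4) : (Gm m).Adj (Sum.inl i) (Sum.inl j) ↔ A4 i j = true := Iff.rfl
lemma adj_lr (i : Fin 4) (g : Fin m) (s : Fin 6) :
    (Gm m).Adj (Sum.inl i) (Sum.inr (g, s)) ↔ i = 0 ∧ rt s = true := Iff.rfl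
lemma adj_rl (i : Fin 4) (g : Fin m) (s : Fin 6) :
    (Gm m).Adj (Sum.inr (g, s)) (Sum.inl i) ↔ i = 0 ∧ rt s = true := Iff.rfl
lemma adj_rr (g h : Fin m) (s t : Fin 6) :
    (Gm m).Adj (Sum.inr (g, s)) (Sum.inr (h, t)) ↔ g = h ∧ A6 s t = true := Iff.rfl

/-- `x` has exactly the two neighbours `u` and `w`. -/
def Two (x u w : Vx m) : Prop := u ≠ w ∧ ∀ y, (Gm m).Adj x y ↔ y = u ∨ y = w

lemma two_p : Two (m := m) (Sum.inl 1) (Sum.inl 0) (Sum.inl 2) := by
  refine ⟨by simp, ?_⟩
  rintro (j | ⟨h, t⟩)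
  · rw [adj_ll]
    simp only [Sum.inl.injEq]
    revert j; decide
  · rw [adj_lr]; simp

lemma two_q : Two (m := m) (Sum.inl 2) (Sum.inl 1) (Sum.inl 3) := by
  refine ⟨by simp, ?_⟩
  rintro (j | ⟨h, t⟩)
  · rw [adj_ll]
    simp only [Sum.inl.injEq]
    revert j; decide
  · rw [adj_lr]; simp

lemma two_r : Two (m := m) (Sum.inl 3) (Sum.inl 2) (Sum.inl 0) := by
  refine ⟨by simp, ?_⟩
  rintro (j | ⟨h, t⟩)
  · rw [adj_ll]
    simp only [Sum.inl.injEq]
    revert j; decide
  · rw [adj_lr]; simp

lemma two_b (g : Fin m) : Two (Sum.inr (g, 1)) (Sum.inr (g, 0)) (Sum.inr (g, 2)) := by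
  refine ⟨by simp, ?_⟩
  rintro (j | ⟨h, t⟩)
  · rw [adj_rl]; simp [rt]
  · rw [adj_rr]
    simp only [Sum.inr.injEq, Prod.mk.injEq]
    have : ∀ t : Fin 6, A6 1 t = true ↔ t = 0 ∨ t = 2 := by decide
    rw [this]
    constructor
    · rintro ⟨rfl, h | h⟩ <;> simp [h]
    · rintro (⟨rfl, h⟩ | ⟨rfl, h⟩) <;> simp [h]

lemma two_c (g : Fin m) : Two (Sum.inr (g, 2)) (Sum.inr (g, 1)) (Sum.inl 0) := by
  refine ⟨by simp, ?_⟩
  rintro (j | ⟨h, t⟩)
  · rw [adj_rl]; simp [rt]
  · rw [adj_rr]
    simp only [Sum.inr.injEq, Prod.mk.injEq]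
    have : ∀ t : Fin 6, A6 2 t = true ↔ t = 1 := by decide
    rw [this]
    constructor
    · rintro ⟨rfl, h⟩; simp [h]
    · rintro (⟨rfl, h⟩ | h)
      · simp [h]
      · simp at h

lemma two_x (g : Fin m) : Two (Sum.inr (g, 3)) (Sum.inr (g, 0)) (Sum.inr (g, 4)) := by
  refine ⟨by simp, ?_⟩
  rintro (j | ⟨h, t⟩)
  · rw [adj_rl]; simp [rt]
  · rw [adj_rr]
    simp only [Sum.inr.injEq, Prod.mk.injEq]
    have : ∀ t : Fin 6, A6 3 t = true ↔ t = 0 ∨ t = 4 := by decide
    rw [this]
    constructor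
    · rintro ⟨rfl, h | h⟩ <;> simp [h]
    · rintro (⟨rfl, h⟩ | ⟨rfl, h⟩) <;> simp [h]

lemma two_y (g : Fin m) : Two (Sum.inr (g, 4)) (Sum.inr (g, 3)) (Sum.inr (g, 5)) := by
  refine ⟨by simp, ?_⟩
  rintro (j | ⟨h, t⟩)
  · rw [adj_rl]; simp [rt]
  · rw [adj_rr]
    simp only [Sum.inr.injEq, Prod.mk.injEq]
    have : ∀ t : Fin 6, A6 4 t = true ↔ t = 3 ∨ t = 5 := by decide
    rw [this]
    constructor
    · rintro ⟨rfl, h | h⟩ <;> simp [h]
    · rintro (⟨rfl, h⟩ | ⟨rfl, h⟩) <;> simp [h]

lemma two_z (g : Fin m) : Two (Sum.inr (g, 5)) (Sum.inr (g, 4)) (Sum.inr (g, 0)) := by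
  refine ⟨by simp, ?_⟩
  rintro (j | ⟨h, t⟩)
  · rw [adj_rl]; simp [rt]
  · rw [adj_rr]
    simp only [Sum.inr.injEq, Prod.mk.injEq]
    have : ∀ t : Fin 6, A6 5 t = true ↔ t = 4 ∨ t = 0 := by decide
    rw [this]
    constructor
    · rintro ⟨rfl, h | h⟩ <;> simp [h]
    · rintro (⟨rfl, h⟩ | ⟨rfl, h⟩) <;> simp [h]

lemma reach_all (x : Vx m) : (Gm m).Reachable (Sum.inl 0) x := by
  have h01 : (Gm m).Adj (Sum.inl 0) (Sum.inl 1) := by rw [adj_ll]; decide
  have h12 : (Gm m).Adj (Sum.inl 1) (Sum.inl 2) := by rw [adj_ll]; decide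
  have h03 : (Gm m).Adj (Sum.inl 0) (Sum.inl 3) := by rw [adj_ll]; decide
  rcases x with i | ⟨g, s⟩
  · fin_cases i
    · exact SimpleGraph.Reachable.refl _
    · exact h01.reachable
    · exact h01.reachable.trans h12.reachable
    · exact h03.reachable
  · have ha : (Gm m).Adj (Sum.inl 0) (Sum.inr (g, 0)) := by rw [adj_lr]; decide
    have hc : (Gm m).Adj (Sum.inl 0) (Sum.inr (g, 2)) := by rw [adj_lr]; decide
    have hb : (Gm m).Adj (Sum.inr (g, 0)) (Sum.inr (g, 1)) := by
      rw [adj_rr]; exact ⟨rfl, by decide⟩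
    have hx : (Gm m).Adj (Sum.inr (g, 0)) (Sum.inr (g, 3)) := by
      rw [adj_rr]; exact ⟨rfl, by decide⟩
    have hy : (Gm m).Adj (Sum.inr (g, 3)) (Sum.inr (g, 4)) := by
      rw [adj_rr]; exact ⟨rfl, by decide⟩
    have hz : (Gm m).Adj (Sum.inr (g, 0)) (Sum.inr (g, 5)) := by
      rw [adj_rr]; exact ⟨rfl, by decide⟩
    fin_cases s
    · exact ha.reachable
    · exact ha.reachable.trans hb.reachable
    · exact hc.reachable
    · exact ha.reachable.trans hx.reachable
    · exact (ha.reachable.trans hx.reachable).trans hy.reachable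
    · exact ha.reachable.trans hz.reachable

lemma connected_Gm : (Gm m).Connected := by
  refine { preconnected := ?_, nonempty := ⟨Sum.inl 0⟩ }
  intro x y
  exact (reach_all x).symm.trans (reach_all y)

/-! ### The FAT colourings of the graph -/

/-- The proper `2`-colouring. -/
def f0 : Vx m → Bool
  | Sum.inl i => decide (i = 0 ∨ i = 2)
  | Sum.inr g => decide (g.2 = 1 ∨ g.2 = 3 ∨ g.2 = 5)

/-- The `2`-colourings in which every vertex has half of its neighbours in each class. -/
structure Half (f : Vx m → Bool) : Prop where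
  q : f (Sum.inl 2) = !f (Sum.inl 0)
  r : f (Sum.inl 3) = !f (Sum.inl 1)
  b : ∀ g, f (Sum.inr (g, 1)) = !f (Sum.inl 0)
  c : ∀ g, f (Sum.inr (g, 2)) = !f (Sum.inr (g, 0))
  y : ∀ g, f (Sum.inr (g, 4)) = !f (Sum.inr (g, 0))
  z : ∀ g, f (Sum.inr (g, 5)) = !f (Sum.inr (g, 3))

/-- Counting neighbours at a vertex of degree two. -/
lemma e_two {k : ℕ} (c : Vx m → Fin k) {x u w : Vx m} (h : Two x u w) (i : Fin k) :
    e (Gm m) c x i = (if c u = i then 1 else 0) + (if c w = i then 1 else 0) := by
  unfold e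
  have hset : {y | (Gm m).Adj x y ∧ c y = i} = {y | (y = u ∨ y = w) ∧ c y = i} := by
    ext y
    show _ ∧ _ ↔ _ ∧ _
    rw [h.2]
  rw [hset]
  by_cases h1 : c u = i <;> by_cases h2 : c w = i
  · have : {y | (y = u ∨ y = w) ∧ c y = i} = {u, w} := by
      ext y
      constructor
      · rintro ⟨h3, _⟩; exact h3
      · rintro (rfl | h3)
        · exact ⟨Or.inl rfl, h1⟩
        · have h4 : y = w := h3
          exact ⟨Or.inr h4, by rw [h4]; exact h2⟩
    rw [this, Set.ncard_pair h.1, if_pos h1, if_pos h2]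
  · have : {y | (y = u ∨ y = w) ∧ c y = i} = {u} := by
      ext y
      constructor
      · rintro ⟨h3 | h3, h4⟩
        · exact h3
        · rw [h3] at h4; exact absurd h4 h2
      · intro h3
        have h4 : y = u := h3
        exact ⟨Or.inl h4, by rw [h4]; exact h1⟩
    rw [this, Set.ncard_singleton, if_pos h1, if_neg h2]
  · have : {y | (y = u ∨ y = w) ∧ c y = i} = {w} := by
      ext y
      constructor
      · rintro ⟨h3 | h3, h4⟩
        · rw [h3] at h4; exact absurd h4 h1
        · exact h3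
      · intro h3
        have h4 : y = w := h3
        exact ⟨Or.inr h4, by rw [h4]; exact h2⟩
    rw [this, Set.ncard_singleton, if_neg h1, if_pos h2]
  · have : {y | (y = u ∨ y = w) ∧ c y = i} = ∅ := by
      ext y
      constructor
      · rintro ⟨h3 | h3, h4⟩
        · rw [h3] at h4; exact absurd h4 h1
        · rw [h3] at h4; exact absurd h4 h2
      · intro h3
        exact h3.elim
    rw [this, Set.ncard_empty, if_neg h1, if_neg h2]

lemma deg_two {x u w : Vx m} (h : Two x u w) : ((Gm m).neighborSet x).ncard = 2 := by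
  have : (Gm m).neighborSet x = {u, w} := by
    ext y
    exact h.2 y
  rw [this, Set.ncard_pair h.1]

lemma ker_not (f : Vx m → Bool) : Setoid.ker (fun x => !f x) = Setoid.ker f := by
  ext x y
  rw [Setoid.ker_def, Setoid.ker_def]
  simp

lemma Half.not {f : Vx m → Bool} (h : Half f) : Half (fun x => !f x) :=
  ⟨by simp [h.q], by simp [h.r], fun g => by simp [h.b], fun g => by simp [h.c],
    fun g => by simp [h.y], fun g => by simp [h.z]⟩

/-- Every FAT partition is trivial, proper or half. -/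
lemma classify {s : Setoid (Vx m)} (hs : s ∈ FATPartitions (Gm m)) :
    s = ⊤ ∨ s = Setoid.ker f0 ∨ ∃ f, Half f ∧ s = Setoid.ker f := by
  obtain ⟨k, c, ⟨α, h0, h1, hc⟩, rfl⟩ := hs
  -- equations at vertices of degree two
  have hne : ∀ {x u w : Vx m}, Two x u w → ∀ i, c x ≠ i →
      ((if c u = i then 1 else 0 : ℕ) : ℝ) + ((if c w = i then 1 else 0 : ℕ) : ℝ) = 2 * α := by
    intro x u w h i hi
    have h2 := (hc x i).1 hi
    rw [e_two c h, deg_two h] at h2
    push_cast at h2 ⊢
    linarith
  have heq : ∀ {x u w : Vx m}, Two x u w →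
      ((if c u = c x then 1 else 0 : ℕ) : ℝ) + ((if c w = c x then 1 else 0 : ℕ) : ℝ) =
        2 * (1 - ((k : ℝ) - 1) * α) := by
    intro x u w h
    have h2 := (hc x (c x)).2 rfl
    rw [e_two c h, deg_two h] at h2
    push_cast at h2 ⊢
    linarith
  by_cases hα : α = 0
  · left
    have hadj : ∀ x y, (Gm m).Adj x y → c x = c y := by
      intro x y hxy
      by_contra hcon
      have h2 := (hc x (c y)).1 hcon
      rw [hα, zero_mul] at h2
      have h3 : e (Gm m) c x (c y) = 0 := by exact_mod_cast h2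
      unfold e at h3
      rw [Set.ncard_eq_zero (Set.toFinite _)] at h3
      have : y ∈ {w | (Gm m).Adj x w ∧ c w = c y} := ⟨hxy, rfl⟩
      rw [h3] at this
      exact this
    have hwalk : ∀ {x y : Vx m}, (Gm m).Walk x y → c x = c y := by
      intro x y p
      induction p with
      | nil => rfl
      | cons h p ih => exact (hadj _ _ h).trans ih
    have hall : ∀ x, c (Sum.inl 0) = c x := by
      intro x
      obtain ⟨p⟩ := reach_all x
      exact hwalk p
    rw [eq_top_iff]
    intro x y _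
    rw [Setoid.ker_def, ← hall x, ← hall y]
  · by_cases hk : k ≤ 1
    · left
      rw [eq_top_iff]
      intro x y _
      rw [Setoid.ker_def]
      apply Fin.ext
      have := (c x).isLt
      have := (c y).isLt
      omega
    · right
      -- an index different from a given one
      have hother : ∀ i : Fin k, ∃ j, i ≠ j := by
        intro i
        by_cases hi : i.val = 0
        · exact ⟨⟨1, by omega⟩, fun h => by rw [h] at hi; simp at hi⟩
        · exact ⟨⟨0, by omega⟩, fun h => hi (by rw [h])⟩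
      obtain ⟨j, hj⟩ := hother (c (Sum.inl 1))
      have hcase := hne two_p j hj
      have hαv : α = 1 / 2 ∨ α = 1 := by
        split_ifs at hcase
        · right; push_cast at hcase; linarith
        · left; push_cast at hcase; linarith
        · left; push_cast at hcase; linarith
        · exfalso; apply hα; push_cast at hcase; linarith
      rcases hαv with hα2 | hα1
      · right
        -- `k ∈ {2, 3}`
        have hk3 : k = 2 ∨ k = 3 := by
          have h2 := heq (two_p (m := m))
          have h3 : (0 : ℝ) ≤ 2 * (1 - ((k : ℝ) - 1) * α) := by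
            rw [← h2]; positivity
          rw [hα2] at h3
          have h4 : (k : ℝ) ≤ 3 := by linarith
          have h5 : k ≤ 3 := by exact_mod_cast h4
          omega
        rcases hk3 with rfl | rfl
        · have key : ∀ {x u w : Vx m}, Two x u w → c u ≠ c w := by
            intro x u w h
            obtain ⟨i, hi⟩ := hother (c x)
            have h2 := hne h i hi
            rw [hα2] at h2
            intro huw
            rw [huw] at h2
            split_ifs at h2 <;> norm_num at h2
          refine ⟨fun x => decide (c x = 1), ?_, ?_⟩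
          · have h2 : ∀ a b : Fin 2, a ≠ b → decide (b = 1) = !decide (a = 1) := by decide
            exact ⟨h2 _ _ (key two_p), h2 _ _ (key two_q),
              fun g => h2 _ _ (key (two_c g)).symm, fun g => h2 _ _ (key (two_b g)),
              fun g => h2 _ _ (key (two_x g)), fun g => h2 _ _ (key (two_y g))⟩
          · ext x y
            rw [Setoid.ker_def, Setoid.ker_def]
            have h2 : ∀ a b : Fin 2, a = b ↔ decide (a = 1) = decide (b = 1) := by decide
            exact h2 _ _
        · exfalso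
          have key : ∀ {x u w : Vx m}, Two x u w → c u ≠ c w ∧ c u ≠ c x ∧ c w ≠ c x := by
            intro x u w h
            have h3 := heq h
            rw [hα2] at h3
            have h4 : c u ≠ c x ∧ c w ≠ c x := by
              constructor
              · intro h5
                rw [if_pos h5] at h3
                split_ifs at h3 <;> norm_num at h3
              · intro h5
                rw [if_pos h5] at h3
                split_ifs at h3 <;> norm_num at h3
            refine ⟨?_, h4⟩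
            obtain ⟨i, hi⟩ := hother (c x)
            have h2 := hne h i hi
            rw [hα2] at h2
            intro huw
            rw [huw] at h2
            split_ifs at h2 <;> norm_num at h2
          have kp := key (two_p (m := m))
          have kq := key (two_q (m := m))
          have kr := key (two_r (m := m))
          have hfin : ∀ v p q r : Fin 3, v ≠ q ∧ v ≠ p ∧ q ≠ p → p ≠ r ∧ p ≠ q ∧ r ≠ q →
              q ≠ v ∧ q ≠ r ∧ v ≠ r → False := by decide
          exact hfin _ _ _ _ kp kq kr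
      · left
        -- all neighbours of `x` have the colour `i ≠ c x`
        have hall : ∀ x y, (Gm m).Adj x y → ∀ i, c x ≠ i → c y = i := by
          intro x y hxy i hi
          have h2 := (hc x i).1 hi
          rw [hα1, one_mul] at h2
          have h3 : e (Gm m) c x i = ((Gm m).neighborSet x).ncard := by exact_mod_cast h2
          unfold e at h3
          have h4 : {w | (Gm m).Adj x w ∧ c w = i} = (Gm m).neighborSet x :=
            Set.eq_of_subset_of_ncard_le (fun w hw => hw.1) h3.ge (Set.toFinite _)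
          have h5 : y ∈ (Gm m).neighborSet x := hxy
          rw [← h4] at h5
          exact h5.2
        have hk2 : k = 2 := by
          obtain ⟨i, hi⟩ := hother (c (Sum.inl 1))
          have h2 := heq (two_p (m := m))
          have hv : c (Sum.inl 0) = i :=
            hall (Sum.inl 1) (Sum.inl 0) ((two_p.2 _).2 (Or.inl rfl)) i hi
          have hq : c (Sum.inl 2) = i :=
            hall (Sum.inl 1) (Sum.inl 2) ((two_p.2 _).2 (Or.inr rfl)) i hi
          rw [hv, hq, if_neg hi.symm, hα1] at h2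
          push_cast at h2
          have h3 : (k : ℝ) = 2 := by linarith
          exact_mod_cast h3
        subst hk2
        have hprop : ∀ x y, (Gm m).Adj x y → c y ≠ c x := by
          intro x y hxy
          obtain ⟨i, hi⟩ := hother (c x)
          rw [hall x y hxy i hi]
          exact hi.symm
        have hadj : ∀ {x u w : Vx m}, Two x u w → c u ≠ c x ∧ c w ≠ c x := fun h =>
          ⟨hprop _ _ ((h.2 _).2 (Or.inl rfl)), hprop _ _ ((h.2 _).2 (Or.inr rfl))⟩
        have hval : ∀ x : Vx m, c x = c (Sum.inl 0) ↔ f0 x = true := by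
          have e1 := hadj (two_p (m := m))
          have e2 := hadj (two_q (m := m))
          have e3 := hadj (two_r (m := m))
          rintro (i | ⟨g, s⟩)
          · have hfin : ∀ v p q r : Fin 2, v ≠ p ∧ q ≠ p → p ≠ q ∧ r ≠ q → q ≠ r ∧ v ≠ r →
                p ≠ v ∧ q = v ∧ r ≠ v := by decide
            have h2 := hfin _ _ _ _ e1 e2 e3
            fin_cases i
            · simp [f0]
            · simpa [f0] using h2.1
            · simpa [f0] using h2.2.1
            · simpa [f0] using h2.2.2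
          · have hE : ∀ a b c : Fin 2, a ≠ b → c ≠ b → a = c := by decide
            have hb := hadj (two_b g)
            have hcc := hadj (two_c g)
            have hx := hadj (two_x g)
            have hy := hadj (two_y g)
            have bv : c (Sum.inr (g, 1)) = c (Sum.inl 0) := hE _ _ _ hcc.1 hcc.2
            have av : c (Sum.inr (g, 0)) ≠ c (Sum.inl 0) := bv ▸ hb.1
            have cv : c (Sum.inr (g, 2)) ≠ c (Sum.inl 0) := bv ▸ hb.2
            have xv : c (Sum.inr (g, 3)) = c (Sum.inl 0) := hE _ _ _ hx.1.symm av.symm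
            have yv : c (Sum.inr (g, 4)) ≠ c (Sum.inl 0) := xv ▸ hx.2
            have zv : c (Sum.inr (g, 5)) = c (Sum.inl 0) := hE _ _ _ hy.2 yv.symm
            fin_cases s
            · simpa [f0] using av
            · simpa [f0] using bv
            · simpa [f0] using cv
            · simpa [f0] using xv
            · simpa [f0] using yv
            · simpa [f0] using zv
        ext x y
        rw [Setoid.ker_def, Setoid.ker_def]
        have h2 : ∀ a b v : Fin 2, ∀ s t : Bool, (a = v ↔ s = true) → (b = v ↔ t = true) →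
            (a = b ↔ s = t) := by decide
        exact h2 _ _ _ _ _ (hval x) (hval y)

/-- The colouring with two colours belonging to a Boolean function. -/
def col (f : Vx m → Bool) (x : Vx m) : Fin 2 := if f x = true then 1 else 0

lemma ker_col (f : Vx m → Bool) : Setoid.ker (col f) = Setoid.ker f := by
  ext x y
  rw [Setoid.ker_def, Setoid.ker_def]
  unfold col
  cases f x <;> cases f y <;> simp

lemma e_col_one (f : Vx m → Bool) (x : Vx m) :
    e (Gm m) (col f) x 1 = {w | (Gm m).Adj x w ∧ f w = true}.ncard := by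
  unfold e
  congr 1
  ext w
  show _ ∧ _ ↔ _ ∧ _
  unfold col
  cases f w <;> simp

lemma e_col_zero (f : Vx m → Bool) (x : Vx m) :
    e (Gm m) (col f) x 0 = {w | (Gm m).Adj x w ∧ f w = false}.ncard := by
  unfold e
  congr 1
  ext w
  show _ ∧ _ ↔ _ ∧ _
  unfold col
  cases f w <;> simp

lemma nbr_split (f : Vx m → Bool) (x : Vx m) :
    {w | (Gm m).Adj x w ∧ f w = true}.ncard + {w | (Gm m).Adj x w ∧ f w = false}.ncard =
      ((Gm m).neighborSet x).ncard := by
  rw [← Set.ncard_union_eq]
  · congr 1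
    ext w
    constructor
    · rintro (h | h)
      · exact h.1
      · exact h.1
    · intro h
      cases hf : f w
      · exact Or.inr ⟨h, hf⟩
      · exact Or.inl ⟨h, hf⟩
  · rw [Set.disjoint_left]
    rintro w ⟨_, h⟩ ⟨_, h'⟩
    rw [h] at h'
    exact absurd h' (by simp)

lemma balanced (f : Vx m → Bool) (x : Vx m) (ι : Vx m ≃ Vx m)
    (h1 : ∀ w, (Gm m).Adj x w → (Gm m).Adj x (ι w))
    (h2 : ∀ w, (Gm m).Adj x w → f (ι w) = !f w) :
    {w | (Gm m).Adj x w ∧ f w = true}.ncard = {w | (Gm m).Adj x w ∧ f w = false}.ncard := by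
  apply le_antisymm
  · apply Set.ncard_le_ncard_of_injOn ι _ ι.injective.injOn (Set.toFinite _)
    rintro w ⟨h3, h4⟩
    exact ⟨h1 w h3, by rw [h2 w h3, h4]; rfl⟩
  · apply Set.ncard_le_ncard_of_injOn ι _ ι.injective.injOn (Set.toFinite _)
    rintro w ⟨h3, h4⟩
    exact ⟨h1 w h3, by rw [h2 w h3, h4]; rfl⟩

lemma balanced_two (f : Vx m → Bool) {x u w : Vx m} (h : Two x u w) (hf : f w = !f u) :
    {w | (Gm m).Adj x w ∧ f w = true}.ncard = {w | (Gm m).Adj x w ∧ f w = false}.ncard := by
  apply balanced f x (Equiv.swap u w)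
  · intro y hy
    rw [h.2] at hy ⊢
    rcases hy with rfl | rfl
    · right; exact Equiv.swap_apply_left _ _
    · left; exact Equiv.swap_apply_right _ _
  · intro y hy
    rw [h.2] at hy
    rcases hy with rfl | rfl
    · rw [Equiv.swap_apply_left, hf]
    · rw [Equiv.swap_apply_right, hf, Bool.not_not]

lemma balanced_half {f : Vx m → Bool} (hf : Half f) (x : Vx m) :
    {w | (Gm m).Adj x w ∧ f w = true}.ncard = {w | (Gm m).Adj x w ∧ f w = false}.ncard := by
  rcases x with i | ⟨g, s⟩
  · fin_cases i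
    · apply balanced f _ (Equiv.sumCongr (Equiv.swap 1 3)
        (Equiv.prodCongr (Equiv.refl _) (Equiv.swap 0 2)))
      · rintro (j | ⟨h, t⟩) hy
        · have : ∀ j : Fin 4, A4 0 j = true → A4 0 (Equiv.swap 1 3 j) = true := by decide
          exact this j hy
        · have : ∀ t : Fin 6, rt t = true → rt (Equiv.swap 0 2 t) = true := by decide
          exact ⟨rfl, this t hy.2⟩
      · rintro (j | ⟨h, t⟩) hy
        · have : ∀ j : Fin 4, A4 0 j = true → j = 1 ∨ j = 3 := by decide
          rcases this j hy with rfl | rfl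
          · show f (Sum.inl (Equiv.swap 1 3 1)) = _
            rw [Equiv.swap_apply_left]
            exact hf.r
          · show f (Sum.inl (Equiv.swap 1 3 3)) = _
            rw [Equiv.swap_apply_right, hf.r, Bool.not_not]
        · have : ∀ t : Fin 6, rt t = true → t = 0 ∨ t = 2 := by decide
          rcases this t hy.2 with rfl | rfl
          · show f (Sum.inr (h, Equiv.swap 0 2 0)) = _
            rw [Equiv.swap_apply_left]
            exact hf.c h
          · show f (Sum.inr (h, Equiv.swap 0 2 2)) = _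
            rw [Equiv.swap_apply_right, hf.c, Bool.not_not]
    · exact balanced_two f two_p hf.q
    · exact balanced_two f two_q hf.r
    · exact balanced_two f two_r (by rw [hf.q, Bool.not_not])
  · fin_cases s
    · have hadj : ∀ y, (Gm m).Adj (Sum.inr (g, 0)) y ↔ y = Sum.inl 0 ∨ y = Sum.inr (g, 1) ∨
          y = Sum.inr (g, 3) ∨ y = Sum.inr (g, 5) := by
        rintro (j | ⟨h, t⟩)
        · rw [adj_rl]; simp [rt]
        · rw [adj_rr]
          have : ∀ t : Fin 6, A6 0 t = true ↔ t = 1 ∨ t = 3 ∨ t = 5 := by decide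
          rw [this]
          simp only [Sum.inr.injEq, Prod.mk.injEq, reduceCtorEq, false_or]
          constructor
          · rintro ⟨rfl, h | h | h⟩ <;> simp [h]
          · rintro (⟨rfl, h⟩ | ⟨rfl, h⟩ | ⟨rfl, h⟩) <;> simp [h]
      have e1 : ∀ a b c d : Vx m, a ≠ c → a ≠ d → b ≠ c → b ≠ d →
          ((Equiv.swap a b) * (Equiv.swap c d) : Equiv.Perm (Vx m)) a = b := by
        intro a b c d h1 h2 _ _
        rw [Equiv.Perm.mul_apply, Equiv.swap_apply_of_ne_of_ne h1 h2, Equiv.swap_apply_left]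
      have e2 : ∀ a b c d : Vx m, a ≠ c → a ≠ d → b ≠ c → b ≠ d →
          ((Equiv.swap a b) * (Equiv.swap c d) : Equiv.Perm (Vx m)) b = a := by
        intro a b c d _ _ h1 h2
        rw [Equiv.Perm.mul_apply, Equiv.swap_apply_of_ne_of_ne h1 h2, Equiv.swap_apply_right]
      have e3 : ∀ a b c d : Vx m, a ≠ c → a ≠ d → b ≠ c → b ≠ d →
          ((Equiv.swap a b) * (Equiv.swap c d) : Equiv.Perm (Vx m)) c = d := by
        intro a b c d _ h1 _ h2
        rw [Equiv.Perm.mul_apply, Equiv.swap_apply_left, Equiv.swap_apply_of_ne_of_ne h1.symm h2.symm]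
      have e4 : ∀ a b c d : Vx m, a ≠ c → a ≠ d → b ≠ c → b ≠ d →
          ((Equiv.swap a b) * (Equiv.swap c d) : Equiv.Perm (Vx m)) d = c := by
        intro a b c d h1 _ h2 _
        rw [Equiv.Perm.mul_apply, Equiv.swap_apply_right, Equiv.swap_apply_of_ne_of_ne h1.symm h2.symm]
      have n1 : (Sum.inl 0 : Vx m) ≠ Sum.inr (g, 3) := by simp
      have n2 : (Sum.inl 0 : Vx m) ≠ Sum.inr (g, 5) := by simp
      have n3 : (Sum.inr (g, 1) : Vx m) ≠ Sum.inr (g, 3) := by simp
      have n4 : (Sum.inr (g, 1) : Vx m) ≠ Sum.inr (g, 5) := by simp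
      apply balanced f _ ((Equiv.swap (Sum.inl 0) (Sum.inr (g, 1))) *
        (Equiv.swap (Sum.inr (g, 3)) (Sum.inr (g, 5))) : Equiv.Perm (Vx m))
      · intro y hy
        change (Gm m).Adj (Sum.inr (g, 0)) y at hy
        show (Gm m).Adj (Sum.inr (g, 0)) _
        rw [hadj] at hy
        rw [hadj]
        rcases hy with rfl | rfl | rfl | rfl
        · right; left; exact e1 _ _ _ _ n1 n2 n3 n4
        · left; exact e2 _ _ _ _ n1 n2 n3 n4
        · right; right; right; exact e3 _ _ _ _ n1 n2 n3 n4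
        · right; right; left; exact e4 _ _ _ _ n1 n2 n3 n4
      · intro y hy
        change (Gm m).Adj (Sum.inr (g, 0)) y at hy
        rw [hadj] at hy
        rcases hy with rfl | rfl | rfl | rfl
        · rw [e1 _ _ _ _ n1 n2 n3 n4]; exact hf.b g
        · rw [e2 _ _ _ _ n1 n2 n3 n4, hf.b, Bool.not_not]
        · rw [e3 _ _ _ _ n1 n2 n3 n4]; exact hf.z g
        · rw [e4 _ _ _ _ n1 n2 n3 n4, hf.z, Bool.not_not]
    · exact balanced_two f (two_b g) (hf.c g)
    · exact balanced_two f (two_c g) (by rw [hf.b, Bool.not_not])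
    · exact balanced_two f (two_x g) (hf.y g)
    · exact balanced_two f (two_y g) (hf.z g)
    · exact balanced_two f (two_z g) (by rw [hf.y, Bool.not_not])

lemma fat_half {f : Vx m → Bool} (hf : Half f) : Setoid.ker f ∈ FATPartitions (Gm m) := by
  refine ⟨2, col f, ⟨1 / 2, by norm_num, by norm_num, ?_⟩, ker_col f⟩
  intro v i
  have h1 := balanced_half hf v
  have h2 := nbr_split f v
  have h3 : (e (Gm m) (col f) v i : ℝ) = 1 / 2 * (((Gm m).neighborSet v).ncard : ℝ) := by
    have h4 : 2 * e (Gm m) (col f) v i = ((Gm m).neighborSet v).ncard := by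
      fin_cases i
      · show 2 * e (Gm m) (col f) v 0 = _
        rw [e_col_zero]; omega
      · show 2 * e (Gm m) (col f) v 1 = _
        rw [e_col_one]; omega
    rw [← h4]
    push_cast
    ring
  refine ⟨fun _ => h3, fun _ => ?_⟩
  rw [h3]
  push_cast
  ring

lemma f0_proper (x y : Vx m) (h : (Gm m).Adj x y) : f0 y = !f0 x := by
  rcases x with i | ⟨g, s⟩ <;> rcases y with j | ⟨g', t⟩
  · have : ∀ i j : Fin 4, A4 i j = true → decide (j = 0 ∨ j = 2) = !decide (i = 0 ∨ i = 2) := by
      decide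
    exact this i j h
  · have : ∀ t : Fin 6, rt t = true → decide (t = 1 ∨ t = 3 ∨ t = 5) = false := by decide
    obtain ⟨h1, h2⟩ := h
    subst h1
    exact this t h2
  · have : ∀ t : Fin 6, rt t = true → true = !decide (t = 1 ∨ t = 3 ∨ t = 5) := by decide
    obtain ⟨h1, h2⟩ := h
    subst h1
    exact this s h2
  · have : ∀ s t : Fin 6, A6 s t = true →
        decide (t = 1 ∨ t = 3 ∨ t = 5) = !decide (s = 1 ∨ s = 3 ∨ s = 5) := by decide
    exact this s t h.2

lemma fat_f0 : Setoid.ker (f0 (m := m)) ∈ FATPartitions (Gm m) := by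
  refine ⟨2, col f0, ⟨1, by norm_num, le_refl _, ?_⟩, ker_col f0⟩
  intro v i
  constructor
  · intro hi
    rw [one_mul]
    have : {w | (Gm m).Adj v w ∧ col f0 w = i} = (Gm m).neighborSet v := by
      ext w
      constructor
      · exact fun h => h.1
      · intro h
        refine ⟨h, ?_⟩
        have h1 := f0_proper v w h
        unfold col at hi ⊢
        rw [h1]
        revert hi
        cases f0 v <;> revert i <;> decide
    unfold e
    rw [this]
  · intro hi
    have : {w | (Gm m).Adj v w ∧ col f0 w = i} = ∅ := by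
      ext w
      constructor
      · rintro ⟨h, h2⟩
        have h1 := f0_proper v w h
        unfold col at hi h2
        rw [h1] at h2
        exfalso
        revert hi h2
        cases f0 v <;> revert i <;> decide
      · exact fun h => h.elim
    unfold e
    rw [this, Set.ncard_empty]
    norm_num

lemma f0_nonconst : f0 (m := m) (Sum.inl 0) ≠ f0 (m := m) (Sum.inl 1) := by simp [f0]

lemma half_nonconst {f : Vx m → Bool} (hf : Half f) : f (Sum.inl 0) ≠ f (Sum.inl 2) := by
  rw [hf.q]
  cases f (Sum.inl 0) <;> simp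

lemma ker_ne_top {f : Vx m → Bool} {a b : Vx m} (h : f a ≠ f b) : Setoid.ker f ≠ ⊤ := by
  intro h2
  apply h
  have : (⊤ : Setoid (Vx m)) a b := trivial
  rw [← h2] at this
  exact this

lemma ker_eq_of_le {f g : Vx m → Bool} {a b : Vx m} (h : f a ≠ f b)
    (hle : Setoid.ker g ≤ Setoid.ker f) : Setoid.ker g = Setoid.ker f := by
  apply le_antisymm hle
  intro x y hxy
  have hxy' : f x = f y := hxy
  show g x = g y
  by_contra hcon
  have hall : ∀ z, f z = f x := by
    intro z
    by_cases hz : g z = g x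
    · exact hle hz
    · have : g z = g y := by
        revert hz hcon
        cases g z <;> cases g x <;> cases g y <;> simp
      rw [hxy']
      exact hle this
  exact h ((hall a).trans (hall b).symm)

lemma irr_iff (s : Setoid (Vx m)) : s ∈ Irreducibles (Gm m) ↔
    s = Setoid.ker f0 ∨ ∃ f, Half f ∧ s = Setoid.ker f := by
  constructor
  · rintro ⟨h1, h2⟩
    rcases classify h1 with h3 | h3
    · exfalso
      have h4 := h2 _ fat_f0 (by rw [h3]; exact le_top)
      rw [h3] at h4
      exact ker_ne_top f0_nonconst h4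
    · exact h3
  · have key : ∀ (f : Vx m → Bool) (a b : Vx m), f a ≠ f b → ∀ t ∈ FATPartitions (Gm m),
        t ≤ Setoid.ker f → t = Setoid.ker f := by
      intro f a b hab t ht hle
      rcases classify ht with h3 | h3 | ⟨g, _, h3⟩
      · exfalso
        rw [h3, top_le_iff] at hle
        exact ker_ne_top hab hle
      · rw [h3] at hle ⊢
        exact ker_eq_of_le hab hle
      · rw [h3] at hle ⊢
        exact ker_eq_of_le hab hle
    rintro (rfl | ⟨f, hf, rfl⟩)
    · exact ⟨fat_f0, key _ _ _ f0_nonconst⟩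
    · exact ⟨fat_half hf, key _ _ _ (half_nonconst hf)⟩

/-! ### The invariant -/

/-- `x` has at least three neighbours. -/
def Big (x : Vx m) : Prop := ∃ y1 y2 y3, y1 ≠ y2 ∧ y1 ≠ y3 ∧ y2 ≠ y3 ∧ (Gm m).Adj x y1 ∧
  (Gm m).Adj x y2 ∧ (Gm m).Adj x y3

lemma not_big_of_two {x u w : Vx m} (h : Two x u w) : ¬ Big x := by
  rintro ⟨y1, y2, y3, h12, h13, h23, h1, h2, h3⟩
  rw [h.2] at h1 h2 h3
  rcases h1 with rfl | rfl <;> rcases h2 with rfl | rfl <;> rcases h3 with rfl | rfl <;>
    simp_all

lemma big_cases {x : Vx m} (h : Big x) : x = Sum.inl 0 ∨ ∃ g, x = Sum.inr (g, 0) := by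
  rcases x with i | ⟨g, s⟩
  · fin_cases i
    · exact Or.inl rfl
    · exact absurd h (not_big_of_two two_p)
    · exact absurd h (not_big_of_two two_q)
    · exact absurd h (not_big_of_two two_r)
  · fin_cases s
    · exact Or.inr ⟨g, rfl⟩
    · exact absurd h (not_big_of_two (two_b g))
    · exact absurd h (not_big_of_two (two_c g))
    · exact absurd h (not_big_of_two (two_x g))
    · exact absurd h (not_big_of_two (two_y g))
    · exact absurd h (not_big_of_two (two_z g))

lemma big_v (g : Fin m) : Big (m := m) (Sum.inl 0) := by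
  refine ⟨Sum.inl 1, Sum.inl 3, Sum.inr (g, 0), by simp, by simp, by simp, ?_, ?_, ?_⟩
  · rw [adj_ll]; decide
  · rw [adj_ll]; decide
  · rw [adj_lr]; decide

lemma big_a (g : Fin m) : Big (m := m) (Sum.inr (g, 0)) := by
  refine ⟨Sum.inl 0, Sum.inr (g, 1), Sum.inr (g, 3), by simp, by simp, by simp, ?_, ?_, ?_⟩
  · rw [adj_rl]; decide
  · rw [adj_rr]; exact ⟨rfl, by decide⟩
  · rw [adj_rr]; exact ⟨rfl, by decide⟩

/-- The set counted by the invariant. -/
def NS (s : Setoid (Vx m)) : Set (Vx m × Vx m) :=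
  {p | (Gm m).Adj p.1 p.2 ∧ Big p.1 ∧ Big p.2 ∧ s p.1 p.2}

lemma ncard_NS (s : Setoid (Vx m)) :
    (NS s).ncard = 2 * {g : Fin m | s (Sum.inl 0) (Sum.inr (g, 0))}.ncard := by
  have hset : NS s =
      ((fun g : Fin m => ((Sum.inl 0, Sum.inr (g, 0)) : Vx m × Vx m)) ''
        {g : Fin m | s (Sum.inl 0) (Sum.inr (g, 0))}) ∪
      ((fun g : Fin m => ((Sum.inr (g, 0), Sum.inl 0) : Vx m × Vx m)) ''
        {g : Fin m | s (Sum.inl 0) (Sum.inr (g, 0))}) := by
    ext ⟨x, y⟩
    constructor
    · rintro ⟨h1, h2, h3, h4⟩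
      rcases big_cases h2 with h5 | ⟨g, h5⟩ <;> rcases big_cases h3 with h6 | ⟨g', h6⟩
      · change x = _ at h5
        change y = _ at h6
        subst h5 h6
        exact absurd h1 ((Gm m).irrefl)
      · change x = _ at h5
        change y = _ at h6
        subst h5 h6
        exact Or.inl ⟨g', h4, rfl⟩
      · change x = _ at h5
        change y = _ at h6
        subst h5 h6
        exact Or.inr ⟨g, s.symm' h4, rfl⟩
      · change x = _ at h5
        change y = _ at h6
        subst h5 h6
        have : A6 0 0 = true := h1.2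
        exact absurd this (by decide)
    · rintro (⟨g, hg, h⟩ | ⟨g, hg, h⟩)
      · obtain ⟨rfl, rfl⟩ := Prod.mk.inj h
        refine ⟨?_, big_v g, big_a g, hg⟩
        show (Gm m).Adj (Sum.inl 0) (Sum.inr (g, 0))
        rw [adj_lr]; decide
      · obtain ⟨rfl, rfl⟩ := Prod.mk.inj h
        refine ⟨?_, big_a g, big_v g, s.symm' hg⟩
        show (Gm m).Adj (Sum.inr (g, 0)) (Sum.inl 0)
        rw [adj_rl]; decide
  rw [hset, Set.ncard_union_eq, Set.ncard_image_of_injective, Set.ncard_image_of_injective]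
  · ring
  · intro g g' h
    simpa using h
  · intro g g' h
    simpa using h
  · rw [Set.disjoint_left]
    rintro _ ⟨g, _, rfl⟩ ⟨g', _, h⟩
    simp at h

lemma big_iso (φ : Gm m ≃g Gm m) {x : Vx m} (h : Big x) : Big (φ x) := by
  obtain ⟨y1, y2, y3, h12, h13, h23, h1, h2, h3⟩ := h
  exact ⟨φ y1, φ y2, φ y3, fun h => h12 (φ.injective h), fun h => h13 (φ.injective h),
    fun h => h23 (φ.injective h), φ.map_rel_iff.2 h1, φ.map_rel_iff.2 h2, φ.map_rel_iff.2 h3⟩

lemma ncard_NS_comap (φ : Gm m ≃g Gm m) (s : Setoid (Vx m)) :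
    (NS (Setoid.comap φ s)).ncard = (NS s).ncard := by
  have hinj : Function.Injective (Prod.map φ φ : Vx m × Vx m → Vx m × Vx m) :=
    Function.Injective.prodMap φ.injective φ.injective
  rw [← Set.ncard_image_of_injective _ hinj]
  congr 1
  ext ⟨x, y⟩
  constructor
  · rintro ⟨⟨x', y'⟩, ⟨h1, h2, h3, h4⟩, h5⟩
    obtain ⟨rfl, rfl⟩ := Prod.mk.inj h5
    exact ⟨φ.map_rel_iff.2 h1, big_iso φ h2, big_iso φ h3, h4⟩
  · rintro ⟨h1, h2, h3, h4⟩
    change (Gm m).Adj x y at h1
    change Big x at h2
    change Big y at h3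
    change s x y at h4
    refine ⟨(φ.symm x, φ.symm y), ⟨φ.symm.map_rel_iff.2 h1, big_iso φ.symm h2,
      big_iso φ.symm h3, ?_⟩, ?_⟩
    · show s (φ (φ.symm x)) (φ (φ.symm y))
      rw [φ.apply_symm_apply, φ.apply_symm_apply]
      exact h4
    · show (φ (φ.symm x), φ (φ.symm y)) = (x, y)
      rw [φ.apply_symm_apply, φ.apply_symm_apply]

/-- The number of gadgets whose vertex `a` has the same colour as `v`. -/
noncomputable def J (s : Setoid (Vx m)) : ℕ := {g : Fin m | s (Sum.inl 0) (Sum.inr (g, 0))}.ncard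

lemma J_comap (φ : Gm m ≃g Gm m) (s : Setoid (Vx m)) : J (Setoid.comap φ s) = J s := by
  have h1 := ncard_NS_comap φ s
  rw [ncard_NS, ncard_NS] at h1
  unfold J
  omega

lemma J_le (s : Setoid (Vx m)) : J s ≤ m := by
  unfold J
  calc _ ≤ (Set.univ : Set (Fin m)).ncard := Set.ncard_le_ncard (Set.subset_univ _) (Set.toFinite _)
    _ = m := by rw [Set.ncard_univ, Nat.card_fin]

/-- Two half colourings with the same invariant differ by an automorphism. -/
lemma exists_iso {f f' : Vx m → Bool} (hf : Half f) (hf' : Half f')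
    (hv : f (Sum.inl 0) = true) (hv' : f' (Sum.inl 0) = true)
    (hJ : J (Setoid.ker f) = J (Setoid.ker f')) :
    ∃ φ : Gm m ≃g Gm m, ∀ x, f' x = f (φ x) := by
  classical
  have hcard : Fintype.card {g : Fin m // f' (Sum.inr (g, 0)) = true} =
      Fintype.card {g : Fin m // f (Sum.inr (g, 0)) = true} := by
    have h1 : ∀ h : Vx m → Bool, h (Sum.inl 0) = true →
        J (Setoid.ker h) = Fintype.card {g : Fin m // h (Sum.inr (g, 0)) = true} := by
      intro h hh
      unfold J
      rw [← Nat.card_eq_fintype_card, ← Nat.card_coe_set_eq]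
      apply Nat.card_congr
      apply Equiv.subtypeEquivRight
      intro g
      show h _ = h _ ↔ _
      rw [hh]
      exact eq_comm
    rw [← h1 f' hv', ← h1 f hv, hJ]
  let eq1 := Fintype.equivOfCardEq hcard
  let σ : Equiv.Perm (Fin m) := eq1.extendSubtype
  have hσ : ∀ g, f' (Sum.inr (g, 0)) = f (Sum.inr (σ g, 0)) := by
    intro g
    cases h : f' (Sum.inr (g, 0)) with
    | true => exact (eq1.extendSubtype_mem g h).symm
    | false =>
      have h2 := eq1.extendSubtype_not_mem g (by rw [h]; simp)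
      have h3 : ¬ (f (Sum.inr (σ g, 0)) = true) := h2
      cases h4 : f (Sum.inr (σ g, 0)) with
      | true => exact absurd h4 h3
      | false => rfl
  let ε : Bool := decide (f' (Sum.inl 1) = f (Sum.inl 1))
  let δ : Fin m → Bool := fun g => decide (f' (Sum.inr (g, 3)) = f (Sum.inr (σ g, 3)))
  let τ4 : Bool → Equiv.Perm (Fin 4) := fun b => if b = true then 1 else Equiv.swap 1 3
  let τ6 : Bool → Equiv.Perm (Fin 6) := fun b => if b = true then 1 else Equiv.swap 3 5
  let F : Vx m ≃ Vx m := Equiv.sumCongr (τ4 ε) (Equiv.prodShear σ (fun g => τ6 (δ g)))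
  have hFl : ∀ i, F (Sum.inl i) = Sum.inl (τ4 ε i) := fun i => rfl
  have hFr : ∀ g s, F (Sum.inr (g, s)) = Sum.inr (σ g, τ6 (δ g) s) := fun g s => rfl
  have hA4 : ∀ b i j, A4 (τ4 b i) (τ4 b j) = A4 i j := by
    intro b
    cases b
    · show ∀ i j, A4 (Equiv.swap 1 3 i) (Equiv.swap 1 3 j) = A4 i j
      decide
    · intro i j; rfl
  have h40 : ∀ b i, τ4 b i = 0 ↔ i = 0 := by
    intro b
    cases b
    · show ∀ i, (Equiv.swap 1 3 : Equiv.Perm (Fin 4)) i = 0 ↔ i = 0
      decide
    · intro i; rfl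
  have hA6 : ∀ b i j, A6 (τ6 b i) (τ6 b j) = A6 i j := by
    intro b
    cases b
    · show ∀ i j, A6 (Equiv.swap 3 5 i) (Equiv.swap 3 5 j) = A6 i j
      decide
    · intro i j; rfl
  have hrt : ∀ b i, rt (τ6 b i) = rt i := by
    intro b
    cases b
    · show ∀ i, rt ((Equiv.swap 3 5 : Equiv.Perm (Fin 6)) i) = rt i
      decide
    · intro i; rfl
  refine ⟨⟨F, ?_⟩, ?_⟩
  · rintro (i | ⟨g, s⟩) (j | ⟨h, t⟩)
    · rw [hFl, hFl, adj_ll, adj_ll, hA4]
    · rw [hFl, hFr, adj_lr, adj_lr, h40, hrt]
    · rw [hFl, hFr, adj_rl, adj_rl, h40, hrt]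
    · rw [hFr, hFr, adj_rr, adj_rr, σ.injective.eq_iff]
      constructor
      · rintro ⟨rfl, h⟩
        rw [hA6] at h
        exact ⟨rfl, h⟩
      · rintro ⟨rfl, h⟩
        rw [hA6]
        exact ⟨rfl, h⟩
  · intro x
    show f' x = f (F x)
    have hbool : ∀ a b : Bool, ¬ (a = b) → a = !b := by decide
    rcases x with i | ⟨g, s⟩
    · rw [hFl]
      by_cases hε : f' (Sum.inl 1) = f (Sum.inl 1)
      · have h1 : τ4 ε = 1 := by simp [τ4, ε, hε]
        rw [h1]
        fin_cases i
        · exact hv'.trans hv.symm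
        · exact hε
        · show f' (Sum.inl 2) = f (Sum.inl 2)
          rw [hf'.q, hf.q, hv, hv']
        · show f' (Sum.inl 3) = f (Sum.inl 3)
          rw [hf'.r, hf.r, hε]
      · have h1 : τ4 ε = Equiv.swap 1 3 := by simp [τ4, ε, hε]
        rw [h1]
        have h2 := hbool _ _ hε
        fin_cases i
        · show f' (Sum.inl 0) = f (Sum.inl ((Equiv.swap 1 3 : Equiv.Perm (Fin 4)) 0))
          rw [show (Equiv.swap 1 3 : Equiv.Perm (Fin 4)) 0 = 0 by decide, hv, hv']
        · show f' (Sum.inl 1) = f (Sum.inl ((Equiv.swap 1 3 : Equiv.Perm (Fin 4)) 1))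
          rw [show (Equiv.swap 1 3 : Equiv.Perm (Fin 4)) 1 = 3 by decide, hf.r, h2]
        · show f' (Sum.inl 2) = f (Sum.inl ((Equiv.swap 1 3 : Equiv.Perm (Fin 4)) 2))
          rw [show (Equiv.swap 1 3 : Equiv.Perm (Fin 4)) 2 = 2 by decide, hf.q, hf'.q, hv, hv']
        · show f' (Sum.inl 3) = f (Sum.inl ((Equiv.swap 1 3 : Equiv.Perm (Fin 4)) 3))
          rw [show (Equiv.swap 1 3 : Equiv.Perm (Fin 4)) 3 = 1 by decide, hf'.r, h2,
            Bool.not_not]
    · rw [hFr]
      by_cases hδ : f' (Sum.inr (g, 3)) = f (Sum.inr (σ g, 3))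
      · have h1 : τ6 (δ g) = 1 := by simp [τ6, δ, hδ]
        rw [h1]
        fin_cases s
        · exact hσ g
        · show f' (Sum.inr (g, 1)) = f (Sum.inr (σ g, 1))
          rw [hf'.b, hf.b, hv, hv']
        · show f' (Sum.inr (g, 2)) = f (Sum.inr (σ g, 2))
          rw [hf'.c, hf.c, hσ]
        · exact hδ
        · show f' (Sum.inr (g, 4)) = f (Sum.inr (σ g, 4))
          rw [hf'.y, hf.y, hσ]
        · show f' (Sum.inr (g, 5)) = f (Sum.inr (σ g, 5))
          rw [hf'.z, hf.z, hδ]
      · have h1 : τ6 (δ g) = Equiv.swap 3 5 := by simp [τ6, δ, hδ]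
        rw [h1]
        have h2 := hbool _ _ hδ
        fin_cases s
        · show f' (Sum.inr (g, 0)) = f (Sum.inr (σ g, (Equiv.swap 3 5 : Equiv.Perm (Fin 6)) 0))
          rw [show (Equiv.swap 3 5 : Equiv.Perm (Fin 6)) 0 = 0 by decide]
          exact hσ g
        · show f' (Sum.inr (g, 1)) = f (Sum.inr (σ g, (Equiv.swap 3 5 : Equiv.Perm (Fin 6)) 1))
          rw [show (Equiv.swap 3 5 : Equiv.Perm (Fin 6)) 1 = 1 by decide, hf'.b, hf.b, hv, hv']
        · show f' (Sum.inr (g, 2)) = f (Sum.inr (σ g, (Equiv.swap 3 5 : Equiv.Perm (Fin 6)) 2))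
          rw [show (Equiv.swap 3 5 : Equiv.Perm (Fin 6)) 2 = 2 by decide, hf'.c, hf.c, hσ]
        · show f' (Sum.inr (g, 3)) = f (Sum.inr (σ g, (Equiv.swap 3 5 : Equiv.Perm (Fin 6)) 3))
          rw [show (Equiv.swap 3 5 : Equiv.Perm (Fin 6)) 3 = 5 by decide, hf.z, h2]
        · show f' (Sum.inr (g, 4)) = f (Sum.inr (σ g, (Equiv.swap 3 5 : Equiv.Perm (Fin 6)) 4))
          rw [show (Equiv.swap 3 5 : Equiv.Perm (Fin 6)) 4 = 4 by decide, hf'.y, hf.y, hσ]
        · show f' (Sum.inr (g, 5)) = f (Sum.inr (σ g, (Equiv.swap 3 5 : Equiv.Perm (Fin 6)) 5))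
          rw [show (Equiv.swap 3 5 : Equiv.Perm (Fin 6)) 5 = 3 by decide, hf'.z, h2,
            Bool.not_not]

/-- Normalisation of a half colouring. -/
lemma normalize {f : Vx m → Bool} (hf : Half f) :
    ∃ g, Half g ∧ g (Sum.inl 0) = true ∧ Setoid.ker g = Setoid.ker f := by
  cases h : f (Sum.inl 0) with
  | true => exact ⟨f, hf, h, rfl⟩
  | false => exact ⟨fun x => !f x, hf.not, by simp [h], ker_not f⟩

/-- A half colouring with prescribed values at the vertices `a`. -/
def mk (t : Fin m → Bool) : Vx m → Bool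
  | Sum.inl i => ![true, true, false, false] i
  | Sum.inr g => ![t g.1, false, !t g.1, true, !t g.1, false] g.2

lemma half_mk (t : Fin m → Bool) : Half (mk t) :=
  ⟨rfl, rfl, fun _ => rfl, fun _ => rfl, fun _ => rfl, fun _ => rfl⟩

lemma J_mk (j : ℕ) (hj : j ≤ m) :
    J (Setoid.ker (mk (fun g : Fin m => decide (g.val < j)))) = j := by
  unfold J
  have hset : {g : Fin m | (Setoid.ker (mk (fun g : Fin m => decide (g.val < j)))) (Sum.inl 0)
      (Sum.inr (g, 0))} = Set.range (Fin.castLE hj) := by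
    ext g
    constructor
    · intro h
      have h1 : true = decide (g.val < j) := h
      have h2 : g.val < j := by simpa using h1.symm
      exact ⟨⟨g.val, h2⟩, rfl⟩
    · rintro ⟨i, rfl⟩
      show true = decide _
      symm
      rw [decide_eq_true_iff]
      exact i.isLt
  rw [hset, ← Set.image_univ, Set.ncard_image_of_injective _ (Fin.castLE_injective hj),
    Set.ncard_univ, Nat.card_fin]

/-- Some edge has both ends in one class. -/
def HasMono (s : Setoid (Vx m)) : Prop := ∃ x y, (Gm m).Adj x y ∧ s x y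

lemma hasMono_comap (φ : Gm m ≃g Gm m) (s : Setoid (Vx m)) :
    HasMono (Setoid.comap φ s) ↔ HasMono s := by
  constructor
  · rintro ⟨x, y, h1, h2⟩
    exact ⟨φ x, φ y, φ.map_rel_iff.2 h1, h2⟩
  · rintro ⟨x, y, h1, h2⟩
    refine ⟨φ.symm x, φ.symm y, φ.symm.map_rel_iff.2 h1, ?_⟩
    show s (φ (φ.symm x)) (φ (φ.symm y))
    rw [φ.apply_symm_apply, φ.apply_symm_apply]
    exact h2

lemma not_hasMono_f0 : ¬ HasMono (Setoid.ker (f0 (m := m))) := by
  rintro ⟨x, y, h1, h2⟩
  have h3 := f0_proper x y h1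
  have h4 : f0 x = f0 y := h2
  rw [h4] at h3
  revert h3
  cases f0 y <;> simp

lemma hasMono_half {f : Vx m → Bool} (hf : Half f) : HasMono (Setoid.ker f) := by
  by_cases h : f (Sum.inl 1) = f (Sum.inl 0)
  · exact ⟨Sum.inl 1, Sum.inl 0, (two_p.2 _).2 (Or.inl rfl), h⟩
  · refine ⟨Sum.inl 1, Sum.inl 2, (two_p.2 _).2 (Or.inr rfl), ?_⟩
    show f (Sum.inl 1) = f (Sum.inl 2)
    rw [hf.q]
    revert h
    cases f (Sum.inl 1) <;> cases f (Sum.inl 0) <;> simp

open Classical in
/-- The complete invariant. -/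
noncomputable def inv (s : Setoid (Vx m)) : Fin (m + 2) :=
  if HasMono s then ⟨J s, by have := J_le s; omega⟩ else ⟨m + 1, by omega⟩

lemma inv_half {f : Vx m → Bool} (hf : Half f) :
    (inv (Setoid.ker f)).val = J (Setoid.ker f) := by
  unfold inv
  rw [if_pos (hasMono_half hf)]

lemma inv_f0 : (inv (Setoid.ker (f0 (m := m)))).val = m + 1 := by
  unfold inv
  rw [if_neg not_hasMono_f0]

lemma inv_comap (φ : Gm m ≃g Gm m) (s : Setoid (Vx m)) : inv (Setoid.comap φ s) = inv s := by
  unfold inv
  by_cases h : HasMono s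
  · rw [if_pos h, if_pos ((hasMono_comap φ s).2 h)]
    apply Fin.ext
    exact J_comap φ s
  · rw [if_neg h, if_neg (fun h' => h ((hasMono_comap φ s).1 h'))]

lemma numIrreducible_Gm (m : ℕ) : numIrreducible (Gm m) = m + 2 := by
  unfold numIrreducible
  let F : Quotient (orbitRel (Gm m)) → Fin (m + 2) := Quotient.lift (fun s => inv s.1) (by
    rintro s t ⟨φ, h⟩
    show inv s.1 = inv t.1
    rw [h, inv_comap])
  have hbij : Function.Bijective F := by
    constructor
    · intro a b
      refine Quotient.inductionOn₂ a b ?_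
      intro s t hst
      have hst' : inv s.1 = inv t.1 := hst
      apply Quotient.sound
      show ∃ φ : Gm m ≃g Gm m, t.1 = Setoid.comap φ s.1
      rcases (irr_iff s.1).1 s.2 with hs | ⟨f, hf, hs⟩ <;>
        rcases (irr_iff t.1).1 t.2 with ht | ⟨f', hf', ht⟩
      · refine ⟨SimpleGraph.Iso.refl, ?_⟩
        rw [hs, ht]
        ext x y
        rfl
      · exfalso
        have h1 := congrArg Fin.val hst'
        rw [hs, ht, inv_f0, inv_half hf'] at h1
        have := J_le (Setoid.ker f')
        omega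
      · exfalso
        have h1 := congrArg Fin.val hst'
        rw [hs, ht, inv_f0, inv_half hf] at h1
        have := J_le (Setoid.ker f)
        omega
      · obtain ⟨g, hg, hgv, hgk⟩ := normalize hf
        obtain ⟨g', hg', hgv', hgk'⟩ := normalize hf'
        have h1 := congrArg Fin.val hst'
        rw [hs, ht, inv_half hf', inv_half hf, ← hgk, ← hgk'] at h1
        obtain ⟨φ, hφ⟩ := exists_iso hg hg' hgv hgv' h1
        refine ⟨φ, ?_⟩
        rw [hs, ht, ← hgk, ← hgk']
        ext x y
        rw [Setoid.comap_rel, Setoid.ker_def, Setoid.ker_def, hφ, hφ]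
    · intro i
      by_cases hi : i.val = m + 1
      · refine ⟨Quotient.mk _ ⟨Setoid.ker f0, (irr_iff _).2 (Or.inl rfl)⟩, ?_⟩
        show inv (Setoid.ker f0) = i
        apply Fin.ext
        rw [inv_f0, hi]
      · have hj : i.val ≤ m := by have := i.isLt; omega
        refine ⟨Quotient.mk _ ⟨Setoid.ker (mk (fun g : Fin m => decide (g.val < i.val))),
          (irr_iff _).2 (Or.inr ⟨_, half_mk _, rfl⟩)⟩, ?_⟩
        show inv (Setoid.ker _) = i
        apply Fin.ext
        rw [inv_half (half_mk _), J_mk _ hj]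
  rw [Nat.card_eq_of_bijective F hbij, Nat.card_fin]

end

/-! ### The case `b = 1` -/

lemma numIrreducible_one : numIrreducible (⊥ : SimpleGraph (Fin 1)) = 1 := by
  have hsub : ∀ s t : Setoid (Fin 1), s = t := by
    intro s t
    ext x y
    have : x = y := Subsingleton.elim x y
    subst this
    exact ⟨fun _ => t.refl' x, fun _ => s.refl' x⟩
  have hfat : (⊤ : Setoid (Fin 1)) ∈ FATPartitions (⊥ : SimpleGraph (Fin 1)) := by
    refine ⟨1, fun _ => 0, ⟨0, le_refl _, by norm_num, ?_⟩, hsub _ _⟩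
    intro v i
    have h1 : e (⊥ : SimpleGraph (Fin 1)) (fun _ => (0 : Fin 1)) v i = 0 := by
      unfold e
      rw [Set.ncard_eq_zero (Set.toFinite _)]
      ext w
      simp
    have h2 : ((⊥ : SimpleGraph (Fin 1)).neighborSet v).ncard = 0 := by
      rw [Set.ncard_eq_zero (Set.toFinite _)]
      ext w
      simp
    rw [h1, h2]
    simp
  have hirr : (⊤ : Setoid (Fin 1)) ∈ Irreducibles (⊥ : SimpleGraph (Fin 1)) :=
    ⟨hfat, fun t _ _ => hsub _ _⟩
  unfold numIrreducible
  rw [Nat.card_eq_one_iff_unique]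
  refine ⟨⟨?_⟩, ⟨Quotient.mk _ ⟨⊤, hirr⟩⟩⟩
  intro a b
  refine Quotient.inductionOn₂ a b ?_
  intro s t
  have : s = t := Subtype.ext (hsub _ _)
  rw [this]

/-- For every positive integer `b` there is a finite connected simple graph with exactly `b`
irreducible FAT colourings (counted up to automorphisms of the graph). -/
theorem result (b : ℕ) (hb : 1 ≤ b) :
    ∃ (V : Type) (_ : Finite V) (G : SimpleGraph V), G.Connected ∧ numIrreducible G = b := by
  by_cases h1 : b = 1
  · subst h1
    refine ⟨Fin 1, inferInstance, ⊥, ?_, numIrreducible_one⟩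
    refine { preconnected := ?_, nonempty := ⟨0⟩ }
    intro x y
    rw [Subsingleton.elim x y]
  · obtain ⟨m, rfl⟩ : ∃ m, b = m + 2 := ⟨b - 2, by omega⟩
    exact ⟨Vx m, inferInstance, Gm m, connected_Gm, numIrreducible_Gm m⟩

end Pool.Agent.Results.MP_48b99b_co.EveryCount
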